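import Pool.Agent.Helper70.BI.HH.StHC

/-!
# Project BI, stage 7 (H): module COB

A cocycle on the fundamental groupoid which is a coboundary at the base point is a coboundary.
-/

set_option autoImplicit false

open scoped Topology unitInterval
open Set

namespace Pool.Agent.Helper70.HH

theorem m_COB : StCOB := by
  intro X _ _ y₀ V _ κ hκ b hb
  let P : ∀ x : X, Path.Homotopic.Quotient y₀ x := fun x =>
    Path.Homotopic.Quotient.mk (PathConnectedSpace.somePath y₀ x)
  let ρ : ∀ {x y : X}, Path.Homotopic.Quotient x y → Path.Homotopic.Quotient y₀ y₀ :=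
    fun {x y} g => ((P x).trans g).trans (P y).symm
  let ν : ∀ x : X, Path.Homotopic.Quotient x y₀ := fun x => (P x).symm
  have e1 : ∀ {x y : X} (g : Path.Homotopic.Quotient x y), (ν x).trans (ρ g) = g.trans (ν y) := by
    intro x y g
    show (P x).symm.trans (((P x).trans g).trans (P y).symm) = g.trans (P y).symm
    rw [← Path.Homotopic.Quotient.trans_assoc, ← Path.Homotopic.Quotient.trans_assoc,
      Path.Homotopic.Quotient.symm_trans, Path.Homotopic.Quotient.refl_trans]
  have e2 : ∀ {x y z : X} (g : Path.Homotopic.Quotient x y) (h : Path.Homotopic.Quotient y z),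
      (ρ g).trans (ρ h) = ρ (g.trans h) := by
    intro x y z g h
    show (((P x).trans g).trans (P y).symm).trans (((P y).trans h).trans (P z).symm) =
      ((P x).trans (g.trans h)).trans (P z).symm
    simp only [Path.Homotopic.Quotient.trans_assoc]
    rw [← Path.Homotopic.Quotient.trans_assoc (P y).symm (P y), Path.Homotopic.Quotient.symm_trans,
      Path.Homotopic.Quotient.refl_trans]
  let S : ∀ {x y z : X}, Path.Homotopic.Quotient x y → Path.Homotopic.Quotient y z → V :=
    fun {x y z} g h => κ (ν x) (ρ g) (ρ h) - κ g (ν y) (ρ h) + κ g h (ν z)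
  refine ⟨fun {x y z} g h => b (ρ g) (ρ h) - S g h, ?_⟩
  intro x y z w g h k
  have D1 := hκ (ν x) (ρ g) (ρ h) (ρ k)
  have D2 := hκ g (ν y) (ρ h) (ρ k)
  have D3 := hκ g h (ν z) (ρ k)
  have D4 := hκ g h k (ν w)
  rw [e1, e2, e2] at D1
  rw [e1, e2] at D2
  rw [e1] at D3
  have hb' := hb (ρ g) (ρ h) (ρ k)
  rw [e2, e2] at hb'
  have key : κ g h k = κ (ρ g) (ρ h) (ρ k) - (S h k - S (g.trans h) k + S g (h.trans k) - S g h) := by
    have : (κ (ρ g) (ρ h) (ρ k) - (S h k - S (g.trans h) k + S g (h.trans k) - S g h)) - κ g h k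
        = (κ (ρ g) (ρ h) (ρ k) - κ (g.trans (ν y)) (ρ h) (ρ k) + κ (ν x) (ρ (g.trans h)) (ρ k)
            - κ (ν x) (ρ g) (ρ (h.trans k)) + κ (ν x) (ρ g) (ρ h))
          - (κ (ν y) (ρ h) (ρ k) - κ (g.trans (ν y)) (ρ h) (ρ k) + κ g (h.trans (ν z)) (ρ k)
            - κ g (ν y) (ρ (h.trans k)) + κ g (ν y) (ρ h))
          + (κ h (ν z) (ρ k) - κ (g.trans h) (ν z) (ρ k) + κ g (h.trans (ν z)) (ρ k)
            - κ g h (k.trans (ν w)) + κ g h (ν z))
          - (κ h k (ν w) - κ (g.trans h) k (ν w) + κ g (h.trans k) (ν w)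
            - κ g h (k.trans (ν w)) + κ g h k) := by
      simp only [S]
      abel
    rw [D1, D2, D3, D4] at this
    have h0 : (κ (ρ g) (ρ h) (ρ k) - (S h k - S (g.trans h) k + S g (h.trans k) - S g h)) - κ g h k
        = 0 := by
      rw [this]
      abel
    exact (sub_eq_zero.1 h0).symm
  show κ g h k = (b (ρ h) (ρ k) - S h k) - (b (ρ (g.trans h)) (ρ k) - S (g.trans h) k) +
    (b (ρ g) (ρ (h.trans k)) - S g (h.trans k)) - (b (ρ g) (ρ h) - S g h)
  rw [key, hb']
  abel

end Pool.Agent.Helper70.HH
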